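import Pool.Agent.N659.HB.Stm8

/-!
Project SD (helper659), S_GR: basic facts on the resolvent. Author: helper438.
-/

set_option autoImplicit false

namespace Pool.Agent.N438.SD

open MeasureTheory Filter Pool.Agent.W792.LL Pool.Agent.W792.WA Pool.Agent.N659.HB
open scoped Topology ENNReal

theorem dia_bdd (hD : S_DIA) {Γ : Type} (c : Γ → ℂ) {M : ℝ} (hM : 0 < M) (hc : ∀ x, ‖c x‖ ≤ M) :
    (∀ (u : l2 Γ) (x : Γ), dia c u x = c x * u x) ∧ ‖dia c‖ ≤ M := by
  have hM' : (M : ℂ) ≠ 0 := by exact_mod_cast hM.ne'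
  have h1 : ∀ x, ‖c x / M‖ ≤ 1 := fun x => by
    rw [norm_div, Complex.norm_real, Real.norm_eq_abs, abs_of_pos hM, div_le_one hM]
    exact hc x
  obtain ⟨h2, h3⟩ := hD Γ (fun x => c x / M) h1
  have h4 : ∀ (u : l2 Γ) (x : Γ), ((M : ℂ) • dia (fun x => c x / M)) u x = c x * u x := by
    intro u x
    have : ((M : ℂ) • dia (fun x => c x / M)) u x = M * (dia (fun x => c x / M) u x) := rfl
    rw [this, h2]
    field_simp
  have h5 : ∃ D : l2 Γ →L[ℂ] l2 Γ, ∀ u x, D u x = c x * u x := ⟨_, h4⟩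
  have h6 : ∀ (u : l2 Γ) (x : Γ), dia c u x = c x * u x := by
    intro u x
    unfold dia
    rw [dif_pos h5]
    exact Classical.choose_spec h5 u x
  refine ⟨h6, ?_⟩
  refine ContinuousLinearMap.opNorm_le_bound _ hM.le fun u => ?_
  have h7 : dia c u = (M : ℂ) • dia (fun x => c x / M) u := by
    apply lp.ext
    funext x
    rw [h6, ← h4]
    rfl
  rw [h7, norm_smul, Complex.norm_real, Real.norm_eq_abs, abs_of_pos hM]
  refine mul_le_mul_of_nonneg_left ?_ hM.le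
  refine (ContinuousLinearMap.le_opNorm _ _).trans ?_
  calc ‖dia (fun x => c x / (M : ℂ))‖ * ‖u‖ ≤ 1 * ‖u‖ :=
        mul_le_mul_of_nonneg_right h3 (norm_nonneg _)
    _ = ‖u‖ := one_mul _

variable {d : ℕ} {w c : ℝ} {X : C(UnitAddTorus (Fin d), ℂ)}

theorem clip_le (hw : 0 ≤ w) (t : ℝ) : ‖((max (-w) (min w t) : ℝ) : ℂ)‖ ≤ w + 1 := by
  rw [Complex.norm_real, Real.norm_eq_abs, abs_le]
  constructor
  · exact le_trans (by linarith) (le_max_left _ _)
  · exact (max_le (by linarith) (min_le_left _ _)).trans (by linarith)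

theorem vcl_apply (hD : S_DIA) (hw : 0 ≤ w) (v : (Fin d → ℤ) → ℝ) (u : l2 (Fin d → ℤ))
    (x : Fin d → ℤ) : vcl w v u x = ((max (-w) (min w (v x)) : ℝ) : ℂ) * u x :=
  (dia_bdd hD _ (by linarith : 0 < w + 1) fun x => clip_le hw (v x)).1 u x

theorem vcl_norm (hD : S_DIA) (hw : 0 ≤ w) (v : (Fin d → ℤ) → ℝ) : ‖vcl w v‖ ≤ w + 1 :=
  (dia_bdd hD _ (by linarith : 0 < w + 1) fun x => clip_le hw (v x)).2

theorem vcl_im (hD : S_DIA) (hw : 0 ≤ w) (v : (Fin d → ℤ) → ℝ) (u : l2 (Fin d → ℤ)) :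
    (inner ℂ u (vcl w v u)).im = 0 := by
  have h1 : inner ℂ u (vcl w v u) = inner ℂ (vcl w v u) u := by
    rw [lp.inner_eq_tsum, lp.inner_eq_tsum]
    refine tsum_congr fun x => ?_
    rw [vcl_apply hD hw]
    simp only [RCLike.inner_apply, map_mul, Complex.conj_ofReal]
    ring
  have h2 := inner_conj_symm (𝕜 := ℂ) u (vcl w v u)
  rw [← h1] at h2
  exact Complex.conj_eq_iff_im.1 h2

theorem re_ge (hS : S_SYMB) (hO : S_OPR) (hD : S_DIA) (hw : 0 ≤ w) (hX : ∀ k, (X k).im ≤ -c)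
    (v : (Fin d → ℤ) → ℝ) (u : l2 (Fin d → ℤ)) :
    c * ‖u‖ ^ 2 ≤ (inner ℂ u (Complex.I • ((vcl w v + opr X) u))).re := by
  obtain ⟨-, -, h3, -, -⟩ := hS d
  have h1 : ∀ k, 0 ≤ ((Complex.I • X + (-(c : ℂ)) • (1 : C(UnitAddTorus (Fin d), ℂ))) k).re := by
    intro k
    have := hX k
    simp only [ContinuousMap.add_apply, ContinuousMap.smul_apply, ContinuousMap.one_apply,
      smul_eq_mul, Complex.add_re, Complex.mul_re, Complex.I_re, Complex.I_im, Complex.neg_re,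
      Complex.neg_im, Complex.ofReal_re, Complex.ofReal_im, Complex.one_re, Complex.one_im]
    linarith
  have h2 := (h3 _).2 h1 u
  obtain ⟨-, -, -, ha, -⟩ := hO d (Complex.I • X) ((-(c : ℂ)) • (1 : C(UnitAddTorus (Fin d), ℂ)))
  obtain ⟨-, -, -, -, hb, -⟩ := hO d X X
  obtain ⟨-, -, -, -, hc, h1', -⟩ := hO d (1 : C(UnitAddTorus (Fin d), ℂ)) 1
  rw [ha, hb, hc, h1'] at h2
  simp only [add_apply, smul_apply,
    one_apply_eq_self, inner_add_right, inner_smul_right, Complex.add_re] at h2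
  have h4 : ((-(c : ℂ)) * inner ℂ u u).re = -(c * ‖u‖ ^ 2) := by
    rw [inner_self_eq_norm_sq_to_K]
    have : (-(c : ℂ)) * ((‖u‖ : ℝ) : ℂ) ^ 2 = ((-(c * ‖u‖ ^ 2) : ℝ) : ℂ) := by push_cast; ring
    exact (congrArg Complex.re this).trans (Complex.ofReal_re _)
  rw [h4] at h2
  have h5 : (inner ℂ u (Complex.I • ((vcl w v + opr X) u))).re =
      (Complex.I * inner ℂ u (vcl w v u)).re + (Complex.I * inner ℂ u (opr X u)).re := by
    rw [inner_smul_right, add_apply, inner_add_right, mul_add, Complex.add_re]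
  have h6 : (Complex.I * inner ℂ u (vcl w v u)).re = 0 := by
    rw [Complex.mul_re, Complex.I_re, Complex.I_im, vcl_im hD hw]
    ring
  rw [h5, h6]
  linarith

/-- the contraction of the Neumann series -/
noncomputable def TT (w L : ℝ) (X : C(UnitAddTorus (Fin d), ℂ)) (v : (Fin d → ℤ) → ℝ) :
    l2 (Fin d → ℤ) →L[ℂ] l2 (Fin d → ℤ) := 1 - (Complex.I / (L : ℂ)) • (vcl w v + opr X)

theorem TT_norm (hS : S_SYMB) (hO : S_OPR) (hD : S_DIA) (hw : 0 ≤ w) (hc : 0 < c)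
    (hX : ∀ k, (X k).im ≤ -c) {M : ℝ} (hM : w + 1 + ‖X‖ + c ≤ M) (v : (Fin d → ℤ) → ℝ) :
    ‖TT w (M ^ 2 / c) X v‖ ≤ Real.sqrt (1 - c ^ 2 / M ^ 2) := by
  have hM0 : 0 < M := by
    have := norm_nonneg X
    linarith
  have hL : 0 < M ^ 2 / c := by positivity
  refine ContinuousLinearMap.opNorm_le_bound _ (Real.sqrt_nonneg _) fun u => ?_
  have hA : ‖(vcl w v + opr X) u‖ ≤ M * ‖u‖ := by
    refine (ContinuousLinearMap.le_opNorm _ _).trans ?_
    refine mul_le_mul_of_nonneg_right ?_ (norm_nonneg _)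
    refine (norm_add_le _ _).trans ?_
    have h1 := vcl_norm hD hw v
    have h2 := (hO d X X).2.1
    linarith
  have h1 := re_ge hS hO hD hw hX v u
  have h2 : TT w (M ^ 2 / c) X v u = u - ((c / M ^ 2 : ℝ) : ℂ) •
      (Complex.I • ((vcl w v + opr X) u)) := by
    unfold TT
    rw [sub_apply, one_apply_eq_self,
      smul_apply, smul_smul]
    congr 2
    push_cast
    have : (M : ℂ) ≠ 0 := by exact_mod_cast hM0.ne'
    have : (c : ℂ) ≠ 0 := by exact_mod_cast hc.ne'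
    field_simp
  have h3 : ‖TT w (M ^ 2 / c) X v u‖ ^ 2 ≤ (1 - c ^ 2 / M ^ 2) * ‖u‖ ^ 2 := by
    rw [h2, @norm_sub_sq ℂ, inner_smul_right, norm_smul, norm_smul, Complex.norm_I, one_mul,
      Complex.norm_real, Real.norm_eq_abs, abs_of_pos (by positivity : 0 < c / M ^ 2)]
    have h4 : RCLike.re (((c / M ^ 2 : ℝ) : ℂ) *
        inner ℂ u (Complex.I • ((vcl w v + opr X) u))) =
        c / M ^ 2 * (inner ℂ u (Complex.I • ((vcl w v + opr X) u))).re :=
      Complex.re_ofReal_mul _ _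
    rw [h4]
    have h5 : (c / M ^ 2 * ‖(vcl w v + opr X) u‖) ^ 2 ≤ (c / M ^ 2 * (M * ‖u‖)) ^ 2 := by
      gcongr
    have h6 : c / M ^ 2 * (c * ‖u‖ ^ 2) ≤
        c / M ^ 2 * (inner ℂ u (Complex.I • ((vcl w v + opr X) u))).re :=
      mul_le_mul_of_nonneg_left h1 (by positivity)
    have h7 : (c / M ^ 2 * (M * ‖u‖)) ^ 2 = c ^ 2 / M ^ 2 * ‖u‖ ^ 2 := by
      field_simp
    have h8 : c / M ^ 2 * (c * ‖u‖ ^ 2) = c ^ 2 / M ^ 2 * ‖u‖ ^ 2 := by
      field_simp
    nlinarith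
  have h9 : 0 ≤ 1 - c ^ 2 / M ^ 2 := by
    have : c ^ 2 / M ^ 2 ≤ 1 := by
      rw [div_le_one (by positivity)]
      have := norm_nonneg X
      nlinarith
    linarith
  calc ‖TT w (M ^ 2 / c) X v u‖ = Real.sqrt (‖TT w (M ^ 2 / c) X v u‖ ^ 2) :=
        (Real.sqrt_sq (norm_nonneg _)).symm
    _ ≤ Real.sqrt ((1 - c ^ 2 / M ^ 2) * ‖u‖ ^ 2) := Real.sqrt_le_sqrt h3
    _ = _ := by rw [Real.sqrt_mul h9, Real.sqrt_sq (norm_nonneg _)]

/-- weakly measurable families of vectors -/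
def WM' (f : ((Fin d → ℤ) → ℝ) → l2 (Fin d → ℤ)) : Prop := ∀ x, Measurable fun v => f v x

theorem WM'_vcl (hD : S_DIA) (hw : 0 ≤ w) {f : ((Fin d → ℤ) → ℝ) → l2 (Fin d → ℤ)} (hf : WM' f) :
    WM' fun v => vcl w v (f v) := by
  intro x
  simp only [vcl_apply hD hw]
  refine Measurable.mul ?_ (hf x)
  refine Complex.measurable_ofReal.comp ?_
  exact (measurable_const).max (measurable_const.min (measurable_pi_apply x))

theorem WM'_opr (hO : S_OPR) (Y : C(UnitAddTorus (Fin d), ℂ))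
    {f : ((Fin d → ℤ) → ℝ) → l2 (Fin d → ℤ)} (hf : WM' f) : WM' fun v => opr Y (f v) := by
  intro x
  have h1 := (hO d Y Y).1
  refine measurable_of_tendsto_metrizable' (atTop : Filter (Finset (Fin d → ℤ)))
    (f := fun s v => ∑ y ∈ s, UnitAddTorus.mFourierCoeff Y (x - y) * f v y) (fun s => ?_) ?_
  · exact Finset.measurable_sum s fun y _ => (measurable_const).mul (hf y)
  · rw [tendsto_pi_nhds]
    intro v
    rw [(h1 (f v) x).2]
    exact (h1 (f v) x).1.hasSum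

theorem WM'_TT (hO : S_OPR) (hD : S_DIA) (hw : 0 ≤ w) (L : ℝ)
    {f : ((Fin d → ℤ) → ℝ) → l2 (Fin d → ℤ)} (hf : WM' f) : WM' fun v => TT w L X v (f v) := by
  intro x
  have h1 := WM'_vcl hD hw hf x
  have h2 := WM'_opr hO X hf x
  have h3 : (fun v => TT w L X v (f v) x) = fun v => f v x -
      (Complex.I / (L : ℂ)) * (vcl w v (f v) x + opr X (f v) x) := by
    funext v
    unfold TT
    rfl
  rw [h3]
  exact (hf x).sub (measurable_const.mul (h1.add h2))

theorem WM'_pow (hO : S_OPR) (hD : S_DIA) (hw : 0 ≤ w) (L : ℝ) (u : l2 (Fin d → ℤ)) (n : ℕ) :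
    WM' fun v => (TT w L X v ^ n) u := by
  induction n with
  | zero =>
    intro x
    simp only [pow_zero, one_apply_eq_self]
    exact measurable_const
  | succ n ih =>
    have h1 := WM'_TT (X := X) hO hD hw L ih
    intro x
    have h2 := h1 x
    simp only [pow_succ'] at h2 ⊢
    exact h2

theorem main (hS : S_SYMB) (hO : S_OPR) (hD : S_DIA) : S_GR := by
  intro d w c X hw hc hX
  obtain ⟨M, hM⟩ : ∃ M, M = w + 1 + ‖X‖ + c := ⟨_, rfl⟩
  have hM0 : 0 < M := by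
    have := norm_nonneg X
    linarith
  obtain ⟨L, hL⟩ : ∃ L, L = M ^ 2 / c := ⟨_, rfl⟩
  have hL0 : 0 < L := by rw [hL]; positivity
  have hLc : (L : ℂ) ≠ 0 := by exact_mod_cast hL0.ne'
  have hT : ∀ v, ‖TT w L X v‖ < 1 := by
    intro v
    rw [hL]
    refine (TT_norm hS hO hD hw hc hX hM.ge v).trans_lt ?_
    rw [Real.sqrt_lt' one_pos, one_pow]
    have : 0 < c ^ 2 / M ^ 2 := by positivity
    linarith
  -- the inverse
  have hA : ∀ v, vcl w v + opr X = (-(Complex.I * L)) • (1 - TT w L X v) := by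
    intro v
    unfold TT
    rw [sub_sub_cancel, smul_smul]
    have : -(Complex.I * (L : ℂ)) * (Complex.I / L) = 1 := by
      field_simp
      rw [Complex.I_sq]; ring
    rw [this, one_smul]
  have hne : (-(Complex.I * (L : ℂ))) ≠ 0 := neg_ne_zero.2 (mul_ne_zero Complex.I_ne_zero hLc)
  have hg : ∀ v, gr w X v = (-(Complex.I * (L : ℂ)))⁻¹ • ∑' n : ℕ, TT w L X v ^ n ∧
      (vcl w v + opr X) * gr w X v = 1 ∧ gr w X v * (vcl w v + opr X) = 1 := by
    intro v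
    have h1 : (1 - TT w L X v) * ∑' n : ℕ, TT w L X v ^ n = 1 :=
      mul_neg_geom_series (TT w L X v) (hT v)
    have h2 : (∑' n : ℕ, TT w L X v ^ n) * (1 - TT w L X v) = 1 :=
      geom_series_mul_neg (TT w L X v) (hT v)
    have h3 : (vcl w v + opr X) * ((-(Complex.I * (L : ℂ)))⁻¹ • ∑' n : ℕ, TT w L X v ^ n) = 1 := by
      rw [hA, smul_mul_smul_comm, h1, mul_inv_cancel₀ hne, one_smul]
    have h4 : ((-(Complex.I * (L : ℂ)))⁻¹ • ∑' n : ℕ, TT w L X v ^ n) * (vcl w v + opr X) = 1 := by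
      rw [hA, smul_mul_smul_comm, h2, inv_mul_cancel₀ hne, one_smul]
    have h5 : gr w X v = (-(Complex.I * (L : ℂ)))⁻¹ • ∑' n : ℕ, TT w L X v ^ n := by
      unfold gr
      exact Ring.inverse_unit (⟨_, _, h3, h4⟩ :
        (l2 (Fin d → ℤ) →L[ℂ] l2 (Fin d → ℤ))ˣ)
    rw [h5]
    exact ⟨rfl, h3, h4⟩
  refine ⟨fun v => ⟨(hg v).2.1, (hg v).2.2, ?_⟩, fun u x => ?_⟩
  · refine ContinuousLinearMap.opNorm_le_bound _ (by positivity) fun y => ?_
    have h1 := re_ge hS hO hD hw hX v (gr w X v y)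
    have h2 : (vcl w v + opr X) (gr w X v y) = y := by
      have := congrArg (fun T : l2 (Fin d → ℤ) →L[ℂ] l2 (Fin d → ℤ) => T y) (hg v).2.1
      exact this
    rw [h2] at h1
    have h3 : (inner ℂ (gr w X v y) (Complex.I • y)).re ≤ ‖gr w X v y‖ * ‖y‖ := by
      refine (Complex.re_le_norm _).trans ((norm_inner_le_norm _ _).trans ?_)
      rw [norm_smul, Complex.norm_I, one_mul]
    rcases eq_or_lt_of_le (norm_nonneg (gr w X v y)) with h4 | h4
    · rw [← h4]; positivity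
    · have h5 : c * ‖gr w X v y‖ ≤ ‖y‖ := by
        have h6 : (c * ‖gr w X v y‖) * ‖gr w X v y‖ ≤ ‖y‖ * ‖gr w X v y‖ := by nlinarith
        exact le_of_mul_le_mul_right h6 h4
      rw [one_div, inv_mul_eq_div, le_div_iff₀ hc]
      linarith
  · have h1 : ∀ v, HasSum (fun n : ℕ => (TT w L X v ^ n) u x)
        ((∑' n : ℕ, TT w L X v ^ n) u x) := by
      intro v
      have h2 : Summable fun n : ℕ => TT w L X v ^ n :=
        summable_geometric_of_norm_lt_one (hT v)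
      have h3 := h2.hasSum.mapL (ContinuousLinearMap.apply ℂ (l2 (Fin d → ℤ)) u)
      have h4 := h3.mapL (lp.evalCLM ℂ (fun _ : Fin d → ℤ => ℂ) 2 x)
      exact h4
    have h2 : Measurable fun v => (∑' n : ℕ, TT w L X v ^ n) u x := by
      refine measurable_of_tendsto_metrizable' (atTop : Filter ℕ)
        (f := fun N v => ∑ n ∈ Finset.range N, (TT w L X v ^ n) u x) (fun N => ?_) ?_
      · exact Finset.measurable_sum _ fun n _ => WM'_pow hO hD hw L u n x
      · rw [tendsto_pi_nhds]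
        intro v
        exact (h1 v).tendsto_sum_nat
    have h3 : (fun v => gr w X v u x) = fun v => (-(Complex.I * (L : ℂ)))⁻¹ *
        (∑' n : ℕ, TT w L X v ^ n) u x := by
      funext v
      rw [(hg v).1]
      rfl
    rw [h3]
    exact measurable_const.mul h2

end Pool.Agent.N438.SD
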